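import Pool.Agent.U944.TH.Base

/-! The optimal weights and the bound for the Lagrangian. -/

set_option autoImplicit false

open Finset

namespace Pool.Agent.U944.TH

variable {V : Type} [Fintype V]

/-- relation functions of oriented graphs -/
structure RV (r : V → V → ℕ) : Prop where
  lt : ∀ a b, r a b < 3
  sw : ∀ a b, r b a = sw (r a b)
  dg : ∀ a, r a a = 0

def phv (r : V → V → ℕ) (x y z : V) : ℝ := (ph (r x y) (r x z) (r y z) : ℕ)

theorem ph_facts : ∀ a < 3, ∀ b < 3, ∀ c < 3, ph (sw a) c b = ph a b c ∧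
    ph b a (sw c) = ph a b c ∧ ph a b c ≤ 1 := by decide

theorem ph_zero : ∀ b < 3, ph 0 b b = 0 := by decide

section
variable {r : V → V → ℕ} (hr : RV r)
include hr

theorem phv_12 (x y z : V) : phv r y x z = phv r x y z := by
  unfold phv
  rw [hr.sw x y, (ph_facts _ (hr.lt x y) _ (hr.lt x z) _ (hr.lt y z)).1]

theorem phv_23 (x y z : V) : phv r x z y = phv r x y z := by
  unfold phv
  rw [hr.sw y z, (ph_facts _ (hr.lt x y) _ (hr.lt x z) _ (hr.lt y z)).2.1]

theorem phv_le (x y z : V) : phv r x y z ≤ 1 := by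
  unfold phv
  exact_mod_cast (ph_facts _ (hr.lt x y) _ (hr.lt x z) _ (hr.lt y z)).2.2

omit hr in
theorem phv_nn (x y z : V) : 0 ≤ phv r x y z := Nat.cast_nonneg _

theorem phv_xx (x z : V) : phv r x x z = 0 := by
  unfold phv
  rw [hr.dg, ph_zero _ (hr.lt x z)]
  norm_num

theorem phv_yy (x z : V) : phv r x z z = 0 := by
  rw [← phv_12 hr, ← phv_23 hr, phv_xx hr]

end

/-- weighted number of paths through two points -/
def d1 (r : V → V → ℕ) (u : V → ℝ) (x y : V) : ℝ := ∑ z, u z * phv r x y z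
/-- through one point -/
def d2 (r : V → V → ℕ) (u : V → ℝ) (x : V) : ℝ := ∑ y, u y * d1 r u x y
/-- the Lagrangian -/
def PP (r : V → V → ℕ) (u : V → ℝ) : ℝ := ∑ x, u x * d2 r u x

theorem d1_symm {r : V → V → ℕ} (hr : RV r) (u : V → ℝ) (x y : V) : d1 r u x y = d1 r u y x := by
  unfold d1
  exact sum_congr rfl fun z _ => by rw [phv_12 hr]

theorem PP_add [DecidableEq V] {r : V → V → ℕ} (hr : RV r) (u : V → ℝ) (x0 : V) (t : ℝ) :
    PP r (fun y => u y + if y = x0 then t else 0) = PP r u + 3 * t * d2 r u x0 := by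
  have key : ∀ f : V → ℝ, ∑ y, (u y + if y = x0 then t else 0) * f y =
      ∑ y, u y * f y + t * f x0 := by
    intro f
    simp [add_mul, sum_add_distrib, ite_mul]
  have e1 : ∀ a b, d1 r (fun y => u y + if y = x0 then t else 0) a b =
      d1 r u a b + t * phv r a b x0 := by
    intro a b
    unfold d1
    rw [key]
  have e2 : ∀ a, d2 r (fun y => u y + if y = x0 then t else 0) a =
      d2 r u a + 2 * t * d1 r u a x0 := by
    intro a
    have h1 : d2 r (fun y => u y + if y = x0 then t else 0) a =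
        ∑ y, (u y + if y = x0 then t else 0) * (d1 r u a y + t * phv r a y x0) := by
      unfold d2
      exact sum_congr rfl fun y _ => by rw [e1]
    rw [h1, key, phv_yy hr]
    have h2 : ∑ y, u y * (d1 r u a y + t * phv r a y x0) = d2 r u a + t * d1 r u a x0 := by
      unfold d2
      have h3 : d1 r u a x0 = ∑ y, u y * phv r a y x0 := by
        unfold d1
        exact sum_congr rfl fun y _ => by rw [phv_23 hr]
      rw [h3, mul_sum, ← sum_add_distrib]
      exact sum_congr rfl fun y _ => by ring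
    rw [h2]
    ring
  have h1 : PP r (fun y => u y + if y = x0 then t else 0) =
      ∑ y, (u y + if y = x0 then t else 0) * (d2 r u y + 2 * t * d1 r u y x0) := by
    unfold PP
    exact sum_congr rfl fun y _ => by rw [e2]
  have h0 : d1 r u x0 x0 = 0 := by
    unfold d1
    exact sum_eq_zero fun z _ => by rw [phv_xx hr, mul_zero]
  rw [h1, key, h0]
  have h2 : ∑ y, u y * (d2 r u y + 2 * t * d1 r u y x0) = PP r u + 2 * t * d2 r u x0 := by
    unfold PP
    have h3 : d2 r u x0 = ∑ y, u y * d1 r u y x0 := by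
      unfold d2
      exact sum_congr rfl fun y _ => by rw [d1_symm hr]
    rw [h3, mul_sum, ← sum_add_distrib]
    exact sum_congr rfl fun y _ => by ring
  rw [h2]
  ring

theorem PP_smul (r : V → V → ℕ) (u : V → ℝ) (c : ℝ) :
    PP r (fun x => c * u x) = c ^ 3 * PP r u := by
  unfold PP d2 d1
  rw [mul_sum]
  refine sum_congr rfl fun x _ => ?_
  have : ∀ y, ∑ z, c * u z * phv r x y z = c * ∑ z, u z * phv r x y z := by
    intro y
    rw [mul_sum]
    exact sum_congr rfl fun z _ => by ring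
  have h2 : ∑ y, c * u y * ∑ z, c * u z * phv r x y z =
      c ^ 2 * ∑ y, u y * ∑ z, u z * phv r x y z := by
    rw [mul_sum]
    exact sum_congr rfl fun y _ => by rw [this]; ring
  rw [h2]
  ring

theorem PP_cont (r : V → V → ℕ) : Continuous (PP r) := by
  unfold PP d2 d1
  fun_prop

/-- The optimal weights. -/
theorem optimum [Nonempty V] {r : V → V → ℕ} (hr : RV r) : ∃ (u : V → ℝ) (l : ℝ),
    (∀ x, 0 ≤ u x) ∧ ∑ x, u x = 1 ∧ PP r u = l ∧
    (∀ v : V → ℝ, (∀ x, 0 ≤ v x) → PP r v ≤ l * (∑ x, v x) ^ 3) ∧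
    (∀ x, u x * d2 r u x = u x * l) := by
  classical
  have hne : (stdSimplex ℝ V).Nonempty := by
    obtain ⟨x⟩ := ‹Nonempty V›
    exact ⟨_, single_mem_stdSimplex ℝ x⟩
  obtain ⟨u, hu, hmax⟩ := (isCompact_stdSimplex ℝ V).exists_isMaxOn hne (PP_cont r).continuousOn
  have hu0 : ∀ x, 0 ≤ u x := hu.1
  have hu1 : ∑ x, u x = 1 := hu.2
  have hhom : ∀ v : V → ℝ, (∀ x, 0 ≤ v x) → PP r v ≤ PP r u * (∑ x, v x) ^ 3 := by
    intro v hv
    have hs0 : 0 ≤ ∑ x, v x := sum_nonneg fun x _ => hv x
    rcases hs0.eq_or_lt with h | h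
    · have hz : ∀ x, v x = 0 := fun x =>
        (sum_eq_zero_iff_of_nonneg fun x _ => hv x).mp h.symm x (mem_univ x)
      rw [← h]
      unfold PP
      simp [hz]
    · set s := ∑ x, v x with hs
      have hmem : (fun x => s⁻¹ * v x) ∈ stdSimplex ℝ V := by
        refine ⟨fun x => mul_nonneg (inv_nonneg.mpr hs0) (hv x), ?_⟩
        rw [← mul_sum, ← hs, inv_mul_cancel₀ h.ne']
      have h1 : PP r (fun x => s⁻¹ * v x) ≤ PP r u := hmax hmem
      rw [PP_smul] at h1
      have h2 : PP r v = s ^ 3 * (s⁻¹ ^ 3 * PP r v) := by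
        field_simp
      rw [h2, mul_comm (PP r u)]
      exact mul_le_mul_of_nonneg_left h1 (by positivity)
  have hl0 : 0 ≤ PP r u := by
    unfold PP d2 d1
    exact sum_nonneg fun x _ => mul_nonneg (hu0 x) (sum_nonneg fun y _ =>
      mul_nonneg (hu0 y) (sum_nonneg fun z _ => mul_nonneg (hu0 z) (phv_nn x y z)))
  have hkkt : ∀ x, d2 r u x ≤ PP r u := by
    intro x
    refine le_of_forall_pos_le_add fun ε hε => ?_
    set l := PP r u with hl
    obtain ⟨t, ht0, ht1⟩ : ∃ t : ℝ, 0 < t ∧ l * (t + t ^ 2 / 3) ≤ ε := by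
      refine ⟨min 1 (ε / (2 * (l + 1))), lt_min one_pos (by positivity), ?_⟩
      set t := min 1 (ε / (2 * (l + 1))) with ht
      have h1 : t ≤ 1 := min_le_left _ _
      have h2 : t ≤ ε / (2 * (l + 1)) := min_le_right _ _
      have h3 : 0 < t := lt_min one_pos (by positivity)
      have h4 : t * (2 * (l + 1)) ≤ ε := (le_div_iff₀ (by positivity)).mp h2
      have h5 : t ^ 2 ≤ t := by nlinarith
      nlinarith [mul_nonneg hl0 h3.le, mul_le_mul_of_nonneg_left h5 hl0]
    have h1 := hhom (fun y => u y + if y = x then t else 0) (by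
      intro y
      have := hu0 y
      by_cases h : y = x
      · simp only [h, if_true]; linarith [hu0 x]
      · simp only [h, if_false]; linarith)
    rw [PP_add hr, sum_add_distrib, hu1] at h1
    simp only [sum_ite_eq', mem_univ, if_true] at h1
    have h2 : 3 * t * d2 r u x ≤ 3 * t * (l + ε) := by nlinarith
    exact le_of_mul_le_mul_left h2 (by positivity)
  have hz : ∀ x, u x * (PP r u - d2 r u x) = 0 := by
    have h1 : ∑ x, u x * (PP r u - d2 r u x) = 0 := by
      have : ∑ x, u x * (PP r u - d2 r u x) = (∑ x, u x) * PP r u - PP r u := by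
        conv_rhs => rw [sum_mul]
        rw [show (∑ x, u x * PP r u) - PP r u = ∑ x, u x * PP r u - ∑ x, u x * d2 r u x from rfl,
          ← sum_sub_distrib]
        exact sum_congr rfl fun x _ => by ring
      rw [this, hu1]
      ring
    have h2 := (sum_eq_zero_iff_of_nonneg fun x _ =>
      mul_nonneg (hu0 x) (sub_nonneg.mpr (hkkt x))).mp h1
    exact fun x => h2 x (mem_univ x)
  exact ⟨u, PP r u, hu0, hu1, rfl, hhom, fun x => by have := hz x; linarith⟩

end Pool.Agent.U944.TH
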