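import Pool.Agent.U944.TH.An

/-! Weighted sums over five points. -/

set_option autoImplicit false

open Finset

namespace Pool.Agent.U944.TH

variable {V : Type} [Fintype V]

/-- the weight of five points -/
def W (u : V → ℝ) (x : Fin 5 → V) : ℝ := ∏ i, u (x i)

def pf (p : ℕ × ℕ × ℕ × ℕ × ℕ) : Fin 5 → Fin 5 :=
  ![Fin.ofNat 5 p.1, Fin.ofNat 5 p.2.1, Fin.ofNat 5 p.2.2.1, Fin.ofNat 5 p.2.2.2.1,
    Fin.ofNat 5 p.2.2.2.2]

theorem pf_inj : ∀ p ∈ perms, Function.Injective (pf p) := by decide +kernel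

theorem sum_comp5 (u : V → ℝ) (f : (Fin 5 → V) → ℝ) {q : Fin 5 → Fin 5}
    (hq : Function.Injective q) :
    ∑ x : Fin 5 → V, W u x * f (x ∘ q) = ∑ x, W u x * f x := by
  have hb : Function.Bijective q := Finite.injective_iff_bijective.mp hq
  let e := Equiv.ofBijective q hb
  have hW : ∀ x : Fin 5 → V, W u (x ∘ q) = W u x := fun x => hb.prod_comp (fun i => u (x i))
  let E : (Fin 5 → V) ≃ (Fin 5 → V) :=
    { toFun := fun x => x ∘ q
      invFun := fun y => y ∘ e.symm
      left_inv := fun x => by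
        funext i
        show x (e (e.symm i)) = x i
        rw [e.apply_symm_apply]
      right_inv := fun y => by
        funext i
        show y (e.symm (e i)) = y i
        rw [e.symm_apply_apply] }
  rw [← Equiv.sum_comp E fun x => W u x * f x]
  exact sum_congr rfl fun x _ => by
    show W u x * f (x ∘ q) = W u (x ∘ q) * f (x ∘ q)
    rw [hW]

theorem avg (u : V → ℝ) (f : (Fin 5 → V) → ℕ) (l : List (ℕ × ℕ × ℕ × ℕ × ℕ))
    (hl : ∀ p ∈ l, Function.Injective (pf p)) :
    ∑ x : Fin 5 → V, W u x * (((l.map fun p => f (x ∘ pf p)).sum : ℕ) : ℝ) =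
      l.length * ∑ x, W u x * (f x : ℝ) := by
  induction l with
  | nil => simp
  | cons p l ih =>
    simp only [List.map_cons, List.sum_cons, Nat.cast_add, mul_add, sum_add_distrib,
      List.length_cons, Nat.cast_one, add_mul, one_mul]
    rw [ih fun q hq => hl q (by simp [hq]), sum_comp5 u (fun x => (f x : ℝ)) (hl p (by simp))]
    ring

theorem W_nn {u : V → ℝ} (hu : ∀ x, 0 ≤ u x) (x : Fin 5 → V) : 0 ≤ W u x :=
  prod_nonneg fun _ _ => hu _

theorem W_sum {u : V → ℝ} (h1 : ∑ x, u x = 1) : ∑ x : Fin 5 → V, W u x = 1 := by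
  have := Fintype.sum_pow u 5
  rw [h1, one_pow] at this
  exact this.symm

/-- nested sums -/
def N5 (u : V → ℝ) (F : V → V → V → V → V → ℝ) : ℝ :=
  ∑ a, ∑ b, ∑ c, ∑ d, ∑ e, u a * u b * u c * u d * u e * F a b c d e

theorem nest (u : V → ℝ) (F : V → V → V → V → V → ℝ) :
    ∑ x : Fin 5 → V, W u x * F (x 0) (x 1) (x 2) (x 3) (x 4) = N5 u F := by
  let E : (Fin 5 → V) ≃ V × V × V × V × V :=
    { toFun := fun x => (x 0, x 1, x 2, x 3, x 4)
      invFun := fun y => ![y.1, y.2.1, y.2.2.1, y.2.2.2.1, y.2.2.2.2]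
      left_inv := fun x => by
        funext i
        fin_cases i <;> rfl
      right_inv := fun y => rfl }
  have h : ∑ x : Fin 5 → V, W u x * F (x 0) (x 1) (x 2) (x 3) (x 4) =
      ∑ y : V × V × V × V × V, u y.1 * u y.2.1 * u y.2.2.1 * u y.2.2.2.1 * u y.2.2.2.2 *
        F y.1 y.2.1 y.2.2.1 y.2.2.2.1 y.2.2.2.2 := by
    refine Fintype.sum_equiv E _ _ fun x => ?_
    unfold W
    rw [Fin.prod_univ_five]
    rfl
  rw [h]
  simp only [Fintype.sum_prod_type]
  rfl

theorem N5_add (u : V → ℝ) (F G : V → V → V → V → V → ℝ) :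
    N5 u (fun a b c d e => F a b c d e + G a b c d e) = N5 u F + N5 u G := by
  simp only [N5, mul_add, sum_add_distrib]

theorem N5_const {u : V → ℝ} (h1 : ∑ x, u x = 1) (k : ℝ) : N5 u (fun _ _ _ _ _ => k) = k := by
  rw [← nest u fun _ _ _ _ _ => k, ← sum_mul, W_sum h1, one_mul]

theorem N5_mul (u : V → ℝ) (F : V → V → V → V → V → ℝ) (k : ℝ) :
    N5 u (fun a b c d e => k * F a b c d e) = k * N5 u F := by
  unfold N5
  simp only [mul_sum]
  refine sum_congr rfl fun a _ => sum_congr rfl fun b _ => sum_congr rfl fun c _ =>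
    sum_congr rfl fun d _ => sum_congr rfl fun e _ => by ring

theorem N5_sum {ι : Type} (s : Finset ι) (u : V → ℝ) (F : ι → V → V → V → V → V → ℝ) :
    N5 u (fun a b c d e => ∑ k ∈ s, F k a b c d e) = ∑ k ∈ s, N5 u (F k) := by
  classical
  induction s using Finset.induction_on with
  | empty => simp [N5]
  | insert k s hk ih =>
    simp only [sum_insert hk]
    rw [N5_add, ih]

theorem sq_sum {ι : Type} [Fintype ι] (v : ι → ℝ) (n : ℕ) (f : ℕ → ι → ℝ) :
    0 ≤ ∑ d, ∑ e, v d * v e * ∑ k ∈ range n, f k d * f k e := by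
  have h : ∑ d, ∑ e, v d * v e * ∑ k ∈ range n, f k d * f k e =
      ∑ k ∈ range n, (∑ d, v d * f k d) * (∑ e, v e * f k e) := by
    simp only [mul_sum, sum_mul]
    rw [sum_comm' (s := univ) (t := fun _ => univ) (t' := univ) (s' := fun _ => univ) (by simp)]
    rw [sum_comm]
    have : ∀ e : ι, ∀ d : ι, True := fun _ _ => trivial
    calc ∑ y, ∑ x, ∑ i ∈ range n, v y * v x * (f i y * f i x) =
        ∑ y, ∑ i ∈ range n, ∑ x, v y * v x * (f i y * f i x) :=
          sum_congr rfl fun y _ => sum_comm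
      _ = ∑ i ∈ range n, ∑ y, ∑ x, v y * v x * (f i y * f i x) := sum_comm
      _ = _ := by
        refine sum_congr rfl fun i _ => ?_
        rw [sum_comm]
        exact sum_congr rfl fun x _ => sum_congr rfl fun y _ => by ring
  rw [h]
  exact sum_nonneg fun k _ => mul_self_nonneg _

end Pool.Agent.U944.TH
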