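import Pool.Agent.U944.TH.Tab

/-! Definitions for the kernel checks of the certificate. -/

set_option autoImplicit false

namespace Pool.Agent.U944.TH

/-- entry of a table -/
def ent (T i : ℕ) : ℕ := Nat.mod (Nat.shiftRight T (Nat.mul 52 i)) 4503599627370496

/-- code of three relations -/
def c3 (a b c : ℕ) : ℕ := Nat.add (Nat.mul 9 a) (Nat.add (Nat.mul 3 b) c)
/-- the reversed relation -/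
def sw (a : ℕ) : ℕ := Nat.mod (Nat.mul 2 a) 3
/-- the indicator of an induced directed two-edge path -/
def ph (a b c : ℕ) : ℕ := Nat.land (Nat.shiftRight 3179680 (c3 a b c)) 1
/-- relation to two roots -/
def p9 (a b : ℕ) : ℕ := Nat.add (Nat.mul 3 a) b

def tAs (s i : ℕ) : ℕ :=
  cond (Nat.beq s 0) (ent tA0 i) (cond (Nat.beq s 1) (ent tA1 i) (cond (Nat.beq s 4) (ent tA2 i)
  (cond (Nat.beq s 5) (ent tA3 i) (cond (Nat.beq s 8) (ent tA4 i) (cond (Nat.beq s 13) (ent tA5 i)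
  (cond (Nat.beq s 16) (ent tA6 i) 1125899906842624))))))

/-- the multiplier of a subset term -/
def sq (a p : ℕ) : ℕ :=
  cond (Nat.beq a 0) (cond (Nat.beq p 7) s0 0)
    (cond (Nat.beq a 1) (cond (Nat.beq p 6) s1 (cond (Nat.beq p 1) s2 0)) 0)

def sv (s f : ℕ) : ℕ := cond (Nat.beq f 0) (Nat.add 52776558133248 (Nat.mul 2 s)) (Nat.sub 52776558133248 (Nat.mul 3 s))

def tS (a p q t f : ℕ) : ℕ :=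
  cond (Nat.beq p q) (cond (Nat.beq p t) (sv (sq a p) f) 52776558133248) 52776558133248

def tS2 (a p q t : ℕ) : ℕ :=
  cond (Nat.beq p q) (cond (Nat.beq p t) (Nat.sub 17592186044416 (sq a p)) 17592186044416) 17592186044416

def TT (r01 r02 r03 r04 r12 r13 r14 r23 r24 r34 : ℕ) : ℕ :=
  Nat.add (tAs (c3 r01 r02 r12) (Nat.add (Nat.mul 27 (c3 r03 r13 r23)) (c3 r04 r14 r24)))
    (Nat.add (ent tB (Nat.add (Nat.mul 27 (c3 r01 r02 r12)) (c3 r03 r04 r34)))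
      (tS r01 (p9 r02 r12) (p9 r03 r13) (p9 r04 r14) (ph r23 r24 r34)))

def T2 (r01 r02 r03 r04 r12 r13 r14 r23 r24 r34 : ℕ) : ℕ :=
  Nat.add (ent tC (c3 r01 r02 r12)) (tS2 r01 (p9 r02 r12) (p9 r03 r13) (p9 r04 r14))

/-- relation in a coded graph -/
def rg (g a b : ℕ) : ℕ := Nat.land (Nat.shiftRight g (Nat.mul 2 (Nat.add (Nat.mul 5 a) b))) 3

def TR (R : ℕ → ℕ → ℕ) (a b c d e : ℕ) : ℕ :=
  TT (R a b) (R a c) (R a d) (R a e) (R b c) (R b d) (R b e) (R c d) (R c e) (R d e)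
def TR2 (R : ℕ → ℕ → ℕ) (a b c d e : ℕ) : ℕ :=
  T2 (R a b) (R a c) (R a d) (R a e) (R b c) (R b d) (R b e) (R c d) (R c e) (R d e)

def perms : List (ℕ × ℕ × ℕ × ℕ × ℕ) :=
  [(0, 1, 2, 3, 4), (0, 1, 2, 4, 3), (0, 1, 3, 2, 4), (0, 1, 3, 4, 2), (0, 1, 4, 2, 3), (0, 1, 4, 3, 2), (0, 2, 1, 3, 4), (0, 2, 1, 4, 3), (0, 2, 3, 1, 4), (0, 2, 3, 4, 1), (0, 2, 4, 1, 3), (0, 2, 4, 3, 1), (0, 3, 1, 2, 4), (0, 3, 1, 4, 2), (0, 3, 2, 1, 4), (0, 3, 2, 4, 1), (0, 3, 4, 1, 2), (0, 3, 4, 2, 1), (0, 4, 1, 2, 3), (0, 4, 1, 3, 2), (0, 4, 2, 1, 3), (0, 4, 2, 3, 1), (0, 4, 3, 1, 2), (0, 4, 3, 2, 1), (1, 0, 2, 3, 4), (1, 0, 2, 4, 3), (1, 0, 3, 2, 4), (1, 0, 3, 4, 2), (1, 0, 4, 2, 3), (1, 0, 4, 3, 2), (1, 2, 0, 3, 4), (1, 2, 0, 4, 3), (1, 2, 3, 0, 4), (1, 2, 3, 4, 0), (1, 2, 4, 0, 3), (1, 2, 4, 3, 0),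 (1, 3, 0, 2, 4), (1, 3, 0, 4, 2), (1, 3, 2, 0, 4), (1, 3, 2, 4, 0), (1, 3, 4, 0, 2), (1, 3, 4, 2, 0), (1, 4, 0, 2, 3), (1, 4, 0, 3, 2), (1, 4, 2, 0, 3), (1, 4, 2, 3, 0), (1, 4, 3, 0, 2), (1, 4, 3, 2, 0), (2, 0, 1, 3, 4), (2, 0, 1, 4, 3), (2, 0, 3, 1, 4), (2, 0, 3, 4, 1), (2, 0, 4, 1, 3), (2, 0, 4, 3, 1), (2, 1, 0, 3, 4), (2, 1, 0, 4, 3), (2, 1, 3, 0, 4), (2, 1, 3, 4, 0), (2, 1, 4, 0, 3), (2, 1, 4, 3, 0), (2, 3, 0, 1, 4), (2, 3, 0, 4, 1), (2, 3, 1, 0, 4), (2, 3, 1, 4, 0), (2, 3, 4, 0, 1), (2, 3, 4, 1, 0), (2, 4, 0, 1, 3), (2, 4, 0, 3, 1), (2, 4, 1, 0, 3), (2, 4, 1, 3, 0), (2, 4, 3, 0, 1), (2, 4, 3, 1, 0), (3, 0, 1, 2, 4), (3, 0, 1, 4, 2), (3, 0, 2, 1, 4), (3, 0, 2, 4, 1), (3, 0, 4, 1, 2), (3, 0, 4, 2, 1), (3, 1, 0, 2, 4), (3, 1, 0, 4, 2), (3, 1, 2, 0, 4), (3, 1, 2, 4, 0), (3, 1,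 4, 0, 2), (3, 1, 4, 2, 0), (3, 2, 0, 1, 4), (3, 2, 0, 4, 1), (3, 2, 1, 0, 4), (3, 2, 1, 4, 0), (3, 2, 4, 0, 1), (3, 2, 4, 1, 0), (3, 4, 0, 1, 2), (3, 4, 0, 2, 1), (3, 4, 1, 0, 2), (3, 4, 1, 2, 0), (3, 4, 2, 0, 1), (3, 4, 2, 1, 0), (4, 0, 1, 2, 3), (4, 0, 1, 3, 2), (4, 0, 2, 1, 3), (4, 0, 2, 3, 1), (4, 0, 3, 1, 2), (4, 0, 3, 2, 1), (4, 1, 0, 2, 3), (4, 1, 0, 3, 2), (4, 1, 2, 0, 3), (4, 1, 2, 3, 0), (4, 1, 3, 0, 2), (4, 1, 3, 2, 0), (4, 2, 0, 1, 3), (4, 2, 0, 3, 1), (4, 2, 1, 0, 3), (4, 2, 1, 3, 0), (4, 2, 3, 0, 1), (4, 2, 3, 1, 0), (4, 3, 0, 1, 2), (4, 3, 0, 2, 1), (4, 3, 1, 0, 2), (4, 3, 1, 2, 0), (4, 3, 2, 0, 1), (4, 3, 2, 1, 0)]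

def sumL (f : ℕ → ℕ → ℕ → ℕ → ℕ → ℕ) (l : List (ℕ × ℕ × ℕ × ℕ × ℕ)) : ℕ :=
  l.foldr (fun p s => Nat.add (f p.1 p.2.1 p.2.2.1 p.2.2.2.1 p.2.2.2.2) s) 0

def ck (g : ℕ) : Bool :=
  cond (Nat.ble (sumL (TR (rg g)) perms) 276549174513824160)
    (Nat.ble 2243003720663040 (sumL (TR2 (rg g)) perms)) false

def nall (n : ℕ) (p : ℕ → Bool) : Bool :=
  Nat.rec (motive := fun _ => Bool) true (fun k ih => cond (p k) ih false) n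

/-- the coded graph with given relations -/
def mkg (r01 r02 r03 r04 r12 r13 r14 r23 r24 r34 : ℕ) : ℕ :=
  Nat.add (Nat.mul 4 r01) (Nat.add (Nat.mul 16 r02) (Nat.add (Nat.mul 64 r03)
  (Nat.add (Nat.mul 256 r04) (Nat.add (Nat.mul 1024 (sw r01)) (Nat.add (Nat.mul 16384 r12)
  (Nat.add (Nat.mul 65536 r13) (Nat.add (Nat.mul 262144 r14) (Nat.add (Nat.mul 1048576 (sw r02))
  (Nat.add (Nat.mul 4194304 (sw r12)) (Nat.add (Nat.mul 67108864 r23) (Nat.add (Nat.mul 268435456 r24)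
  (Nat.add (Nat.mul 1073741824 (sw r03)) (Nat.add (Nat.mul 4294967296 (sw r13))
  (Nat.add (Nat.mul 17179869184 (sw r23)) (Nat.add (Nat.mul 274877906944 r34)
  (Nat.add (Nat.mul 1099511627776 (sw r04)) (Nat.add (Nat.mul 4398046511104 (sw r14))
  (Nat.add (Nat.mul 17592186044416 (sw r24)) (Nat.mul 70368744177664 (sw r34))))))))))))))))))))

/-- digits base three -/
def dg (k m : ℕ) : ℕ := Nat.mod (Nat.div m k) 3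

def ckm (r01 r02 r12 r03 r13 r23 m : ℕ) : Bool :=
  ck (mkg r01 r02 r03 (dg 1 m) r12 r13 (dg 3 m) r23 (dg 9 m) (dg 27 m))

/-- four-vertex graphs up to isomorphism, relations 01, 02, 12, 03, 13, 23 -/
def can4 : List (List ℕ) :=
  [[0, 0, 0, 0, 0, 0], [1, 0, 0, 0, 0, 0], [1, 1, 0, 0, 0, 0], [2, 1, 0, 0, 0, 0], [2, 2, 0, 0, 0, 0], [1, 1, 1, 0, 0, 0], [1, 2, 1, 0, 0, 0], [1, 1, 0, 1, 0, 0], [2, 1, 0, 1, 0, 0], [2, 2, 0, 1, 0, 0], [0, 0, 1, 1, 0, 0], [1, 0, 1, 1, 0, 0], [0, 1, 1, 1, 0, 0], [1, 1, 1, 1, 0, 0], [2, 1, 1, 1, 0, 0], [0, 2, 1, 1, 0, 0], [1, 2, 1, 1, 0, 0], [2, 2, 1, 1, 0, 0], [2, 2, 0, 2, 0, 0], [0, 1, 1, 2, 0, 0], [1, 1, 1, 2, 0, 0], [2, 1, 1, 2, 0, 0], [1, 2, 1, 2, 0, 0], [2, 2, 1, 2, 0, 0], [0, 1, 1, 1, 1, 0], [1, 1, 1, 1, 1, 0], [0, 2, 1, 1, 1, 0], [1, 2, 1, 1, 1,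 0], [2, 2, 1, 1, 1, 0], [0, 2, 2, 1, 1, 0], [1, 2, 2, 1, 1, 0], [1, 2, 1, 2, 1, 0], [2, 2, 1, 2, 1, 0], [0, 1, 2, 2, 1, 0], [1, 1, 2, 2, 1, 0], [1, 2, 2, 2, 1, 0], [2, 2, 2, 2, 1, 0], [1, 2, 2, 2, 2, 0], [1, 1, 1, 1, 1, 1], [1, 2, 1, 1, 1, 1], [1, 1, 1, 2, 1, 1], [2, 1, 1, 2, 1, 1]]

end Pool.Agent.U944.TH
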