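import Pool.Agent.U944.TH.Comb0

/-! The certificate for all five-vertex oriented graphs. -/

set_option autoImplicit false
set_option maxRecDepth 100000

namespace Pool.Agent.U944.TH

structure Rel (R : ℕ → ℕ → ℕ) : Prop where
  lt : ∀ a b, R a b < 3
  sw : ∀ a b, R b a = sw (R a b)
  dg : ∀ a, R a a = 0

def enc : List ℕ → ℕ
  | [] => 0
  | d :: l => d + 4 * enc l

theorem enc_get : ∀ (l : List ℕ), (∀ d ∈ l, d < 4) → ∀ i, enc l / 4 ^ i % 4 = l.getD i 0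
  | [], _, i => by simp [enc]
  | d :: l, h, 0 => by
    have := h d (by simp)
    simp only [enc, pow_zero, Nat.div_one, List.getD_cons_zero]
    omega
  | d :: l, h, i + 1 => by
    have hd := h d (by simp)
    have h2 : (d + 4 * enc l) / 4 ^ (i + 1) = enc l / 4 ^ i := by
      rw [pow_succ', ← Nat.div_div_eq_div_mul]
      congr 1
      omega
    simp only [enc, List.getD_cons_succ]
    rw [h2]
    exact enc_get l (fun x hx => h x (by simp [hx])) i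

theorem rg_eq (g a b : ℕ) : rg g a b = g / 4 ^ (5 * a + b) % 4 := by
  show (g >>> (2 * (5 * a + b))) &&& (2 ^ 2 - 1) = _
  rw [Nat.and_two_pow_sub_one_eq_mod, Nat.shiftRight_eq_div_pow, pow_mul]
  norm_num

theorem mkg_enc (r01 r02 r03 r04 r12 r13 r14 r23 r24 r34 : ℕ) :
    mkg r01 r02 r03 r04 r12 r13 r14 r23 r24 r34 =
    enc [0, r01, r02, r03, r04, sw r01, 0, r12, r13, r14, sw r02, sw r12, 0, r23, r24,
      sw r03, sw r13, sw r23, 0, r34, sw r04, sw r14, sw r24, sw r34, 0] := by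
  simp only [enc, mkg, Nat.add_eq, Nat.mul_eq]
  ring

theorem sw_lt (a : ℕ) : sw a < 3 := Nat.mod_lt _ (by norm_num)

theorem rg_R {R : ℕ → ℕ → ℕ} (hR : Rel R) : ∀ a < 5, ∀ b < 5,
    rg (mkg (R 0 1) (R 0 2) (R 0 3) (R 0 4) (R 1 2) (R 1 3) (R 1 4) (R 2 3) (R 2 4) (R 3 4)) a b
      = R a b := by
  intro a ha b hb
  have hl : ∀ d ∈ [0, R 0 1, R 0 2, R 0 3, R 0 4, sw (R 0 1), 0, R 1 2, R 1 3, R 1 4,
      sw (R 0 2), sw (R 1 2), 0, R 2 3, R 2 4, sw (R 0 3), sw (R 1 3), sw (R 2 3), 0, R 3 4,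
      sw (R 0 4), sw (R 1 4), sw (R 2 4), sw (R 3 4), 0], d < 4 := by
    intro d hd
    have h3 : d < 3 := by
      simp only [List.mem_cons, List.not_mem_nil, or_false] at hd
      rcases hd with h | h | h | h | h | h | h | h | h | h | h | h | h | h | h | h | h | h | h | h
        | h | h | h | h | h <;> rw [h] <;> first | exact hR.lt _ _ | exact sw_lt _ | norm_num
    omega
  rw [rg_eq, mkg_enc, enc_get _ hl]
  interval_cases a <;> interval_cases b <;>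
    first
      | rfl
      | exact (hR.dg _).symm
      | exact (hR.sw _ _).symm

theorem sumL_congr {f g : ℕ → ℕ → ℕ → ℕ → ℕ → ℕ} {l : List (ℕ × ℕ × ℕ × ℕ × ℕ)}
    (h : ∀ p ∈ l, f p.1 p.2.1 p.2.2.1 p.2.2.2.1 p.2.2.2.2 = g p.1 p.2.1 p.2.2.1 p.2.2.2.1 p.2.2.2.2) :
    sumL f l = sumL g l := by
  induction l with
  | nil => rfl
  | cons p l ih =>
    show f p.1 p.2.1 p.2.2.1 p.2.2.2.1 p.2.2.2.2 + sumL f l =
      g p.1 p.2.1 p.2.2.1 p.2.2.2.1 p.2.2.2.2 + sumL g l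
    rw [h p (by simp), ih fun q hq => h q (by simp [hq])]

theorem cond_ble {a b c d : ℕ} (h : cond (Nat.ble a b) (Nat.ble c d) false = true) :
    a ≤ b ∧ c ≤ d := by
  cases h1 : Nat.ble a b with
  | false => rw [h1] at h; exact absurd h (by simp)
  | true => rw [h1] at h; exact ⟨Nat.le_of_ble_eq_true h1, Nat.le_of_ble_eq_true h⟩

theorem base {R : ℕ → ℕ → ℕ} (hR : Rel R)
    (hc : [R 0 1, R 0 2, R 1 2, R 0 3, R 1 3, R 2 3] ∈ can4) :
    sumL (TR R) perms ≤ 276549174513824160 ∧ 2243003720663040 ≤ sumL (TR2 R) perms := by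
  have h1 := hR.lt 0 4
  have h2 := hR.lt 1 4
  have h3 := hR.lt 2 4
  have h4 := hR.lt 3 4
  set m := R 0 4 + 3 * R 1 4 + 9 * R 2 4 + 27 * R 3 4 with hm
  have hk := kall _ hc m (by omega)
  have e1 : dg 1 m = R 0 4 := by show m / 1 % 3 = _; omega
  have e2 : dg 3 m = R 1 4 := by show m / 3 % 3 = _; omega
  have e3 : dg 9 m = R 2 4 := by show m / 9 % 3 = _; omega
  have e4 : dg 27 m = R 3 4 := by show m / 27 % 3 = _; omega
  have hk2 : ck (mkg (R 0 1) (R 0 2) (R 0 3) (dg 1 m) (R 1 2) (R 1 3) (dg 3 m) (R 2 3) (dg 9 m)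
      (dg 27 m)) = true := hk
  rw [e1, e2, e3, e4] at hk2
  have hg := rg_R hR
  set g := mkg (R 0 1) (R 0 2) (R 0 3) (R 0 4) (R 1 2) (R 1 3) (R 1 4) (R 2 3) (R 2 4) (R 3 4)
  have c1 : sumL (TR (rg g)) perms = sumL (TR R) perms := by
    refine sumL_congr fun p hp => ?_
    obtain ⟨a, b, c, d, e⟩ := perms_lt p hp
    unfold TR
    rw [hg _ a _ b, hg _ a _ c, hg _ a _ d, hg _ a _ e, hg _ b _ c, hg _ b _ d, hg _ b _ e,
      hg _ c _ d, hg _ c _ e, hg _ d _ e]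
  have c2 : sumL (TR2 (rg g)) perms = sumL (TR2 R) perms := by
    refine sumL_congr fun p hp => ?_
    obtain ⟨a, b, c, d, e⟩ := perms_lt p hp
    unfold TR2
    rw [hg _ a _ b, hg _ a _ c, hg _ a _ d, hg _ a _ e, hg _ b _ c, hg _ b _ d, hg _ b _ e,
      hg _ c _ d, hg _ c _ e, hg _ d _ e]
  unfold ck at hk2
  rw [c1, c2] at hk2
  exact cond_ble hk2

theorem m4_R {R : ℕ → ℕ → ℕ} (hR : Rel R) : ∀ i < 4, ∀ j < 4,
    m4 (R 0 1) (R 0 2) (R 1 2) (R 0 3) (R 1 3) (R 2 3) i j = R i j := by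
  intro i hi j hj
  interval_cases i <;> interval_cases j <;>
    first
      | rfl
      | exact (hR.dg _).symm
      | exact (hR.sw _ _).symm

theorem dg6 {a b c d e f : ℕ} (ha : a < 3) (hb : b < 3) (hc : c < 3) (hd : d < 3) (he : e < 3)
    (hf : f < 3) : dg 1 (cd6 a b c d e f) = a ∧ dg 3 (cd6 a b c d e f) = b ∧
      dg 9 (cd6 a b c d e f) = c ∧ dg 27 (cd6 a b c d e f) = d ∧ dg 81 (cd6 a b c d e f) = e ∧
      dg 243 (cd6 a b c d e f) = f ∧ cd6 a b c d e f < 729 := by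
  unfold cd6
  refine ⟨?_, ?_, ?_, ?_, ?_, ?_, ?_⟩
  · show _ / 1 % 3 = _; omega
  · show _ / 3 % 3 = _; omega
  · show _ / 9 % 3 = _; omega
  · show _ / 27 % 3 = _; omega
  · show _ / 81 % 3 = _; omega
  · show _ / 243 % 3 = _; omega
  · omega

theorem exists_can {R : ℕ → ℕ → ℕ} (hR : Rel R) : ∃ p ∈ p4,
    [R (rho p 0) (rho p 1), R (rho p 0) (rho p 2), R (rho p 1) (rho p 2), R (rho p 0) (rho p 3),
      R (rho p 1) (rho p 3), R (rho p 2) (rho p 3)] ∈ can4 := by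
  obtain ⟨e1, e2, e3, e4, e5, e6, h⟩ := dg6 (hR.lt 0 1) (hR.lt 0 2) (hR.lt 1 2) (hR.lt 0 3)
    (hR.lt 1 3) (hR.lt 2 3)
  have h1 := nall_true has_can _ h
  unfold hasCan at h1
  rw [e1, e2, e3, e4, e5, e6] at h1
  obtain ⟨p, hp, h2⟩ := List.any_eq_true.mp h1
  obtain ⟨l0, l1, l2, l3⟩ := p4_lt p hp
  have hm := m4_R hR
  rw [hm _ l0 _ l1, hm _ l0 _ l2, hm _ l1 _ l2, hm _ l0 _ l3, hm _ l1 _ l3, hm _ l2 _ l3] at h2
  obtain ⟨f1, f2, f3, f4, f5, f6, h'⟩ := dg6 (hR.lt (rho p 0) (rho p 1)) (hR.lt (rho p 0) (rho p 2))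
    (hR.lt (rho p 1) (rho p 2)) (hR.lt (rho p 0) (rho p 3)) (hR.lt (rho p 1) (rho p 3))
    (hR.lt (rho p 2) (rho p 3))
  have h3 := nall_true can_mem _ h'
  rw [h2, f1, f2, f3, f4, f5, f6] at h3
  exact ⟨p, hp, of_decide_eq_true h3⟩

theorem sumL_sum (f : ℕ → ℕ → ℕ → ℕ → ℕ → ℕ) (l : List (ℕ × ℕ × ℕ × ℕ × ℕ)) :
    sumL f l = (l.map fun p => f p.1 p.2.1 p.2.2.1 p.2.2.2.1 p.2.2.2.2).sum := by
  induction l with
  | nil => rfl
  | cons p l ih =>
    rw [List.map_cons, List.sum_cons, ← ih]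
    rfl

theorem sumL_rho (f : ℕ → ℕ → ℕ → ℕ → ℕ → ℕ) {p : ℕ × ℕ × ℕ × ℕ} (hp : p ∈ p4) :
    sumL (fun a b c d e => f (rho p a) (rho p b) (rho p c) (rho p d) (rho p e)) perms =
      sumL f perms := by
  have h1 := List.isPerm_iff.mp (perm_rhat p hp)
  rw [sumL_sum, sumL_sum]
  have h2 := (h1.map fun q => f q.1 q.2.1 q.2.2.1 q.2.2.2.1 q.2.2.2.2).sum_eq
  rw [List.map_map] at h2
  exact h2

theorem main_R {R : ℕ → ℕ → ℕ} (hR : Rel R) :
    sumL (TR R) perms ≤ 276549174513824160 ∧ 2243003720663040 ≤ sumL (TR2 R) perms := by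
  obtain ⟨p, hp, hc⟩ := exists_can hR
  have hR' : Rel fun a b => R (rho p a) (rho p b) :=
    ⟨fun a b => hR.lt _ _, fun a b => hR.sw _ _, fun a => hR.dg _⟩
  have h := base hR' hc
  have h1 : sumL (TR fun a b => R (rho p a) (rho p b)) perms = sumL (TR R) perms :=
    sumL_rho (TR R) hp
  have h2 : sumL (TR2 fun a b => R (rho p a) (rho p b)) perms = sumL (TR2 R) perms :=
    sumL_rho (TR2 R) hp
  rw [h1, h2] at h
  exact h

end Pool.Agent.U944.TH
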