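import Pool.Agent.U944.TH.Base

/-! Kernel checks (generated). -/

set_option autoImplicit false
set_option maxRecDepth 100000

namespace Pool.Agent.U944.TH

theorem k2 : nall 81 (fun m => ckm 1 1 0 0 0 0 m) = true := by decide +kernel
theorem k8 : nall 81 (fun m => ckm 2 1 0 1 0 0 m) = true := by decide +kernel
theorem k14 : nall 81 (fun m => ckm 2 1 1 1 0 0 m) = true := by decide +kernel
theorem k20 : nall 81 (fun m => ckm 1 1 1 2 0 0 m) = true := by decide +kernel
theorem k26 : nall 81 (fun m => ckm 0 2 1 1 1 0 m) = true := by decide +kernel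
theorem k32 : nall 81 (fun m => ckm 2 2 1 2 1 0 m) = true := by decide +kernel
theorem k38 : nall 81 (fun m => ckm 1 1 1 1 1 1 m) = true := by decide +kernel

end Pool.Agent.U944.TH
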