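import Pool.Agent.U944.TH.K0
import Pool.Agent.U944.TH.K1
import Pool.Agent.U944.TH.K2
import Pool.Agent.U944.TH.K3
import Pool.Agent.U944.TH.K4
import Pool.Agent.U944.TH.K5

/-! The certificate for all five-vertex oriented graphs. -/

set_option autoImplicit false
set_option maxRecDepth 100000

namespace Pool.Agent.U944.TH

theorem nall_true {n : ℕ} {p : ℕ → Bool} (h : nall n p = true) : ∀ k < n, p k = true := by
  induction n with
  | zero => intro k hk; exact absurd hk (Nat.not_lt_zero k)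
  | succ n ih =>
    intro k hk
    have h' : (cond (p n) (nall n p) false) = true := h
    cases hp : p n with
    | false => rw [hp] at h'; exact absurd h' (by simp)
    | true =>
      rw [hp] at h'
      rcases Nat.lt_succ_iff_lt_or_eq.mp hk with h1 | h1
      · exact ih h' k h1
      · rw [h1]; exact hp

theorem kall : ∀ t ∈ can4, ∀ m < 81, ckm (t.getD 0 0) (t.getD 1 0) (t.getD 2 0) (t.getD 3 0)
    (t.getD 4 0) (t.getD 5 0) m = true := by
  intro t ht
  simp only [can4, List.mem_cons, List.not_mem_nil, or_false] at ht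
  rcases ht with rfl | rfl | rfl | rfl | rfl | rfl | rfl | rfl | rfl | rfl | rfl | rfl | rfl | rfl | rfl | rfl | rfl | rfl | rfl | rfl | rfl | rfl | rfl | rfl | rfl | rfl | rfl | rfl | rfl | rfl | rfl | rfl | rfl | rfl | rfl | rfl | rfl | rfl | rfl | rfl | rfl | rfl
  · exact nall_true k0
  · exact nall_true k1
  · exact nall_true k2
  · exact nall_true k3
  · exact nall_true k4
  · exact nall_true k5
  · exact nall_true k6
  · exact nall_true k7
  · exact nall_true k8
  · exact nall_true k9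
  · exact nall_true k10
  · exact nall_true k11
  · exact nall_true k12
  · exact nall_true k13
  · exact nall_true k14
  · exact nall_true k15
  · exact nall_true k16
  · exact nall_true k17
  · exact nall_true k18
  · exact nall_true k19
  · exact nall_true k20
  · exact nall_true k21
  · exact nall_true k22
  · exact nall_true k23
  · exact nall_true k24
  · exact nall_true k25
  · exact nall_true k26
  · exact nall_true k27
  · exact nall_true k28
  · exact nall_true k29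
  · exact nall_true k30
  · exact nall_true k31
  · exact nall_true k32
  · exact nall_true k33
  · exact nall_true k34
  · exact nall_true k35
  · exact nall_true k36
  · exact nall_true k37
  · exact nall_true k38
  · exact nall_true k39
  · exact nall_true k40
  · exact nall_true k41

theorem perms_lt : ∀ p ∈ perms, p.1 < 5 ∧ p.2.1 < 5 ∧ p.2.2.1 < 5 ∧ p.2.2.2.1 < 5 ∧
    p.2.2.2.2 < 5 := by decide +kernel

def rho (p : ℕ × ℕ × ℕ × ℕ) (i : ℕ) : ℕ :=
  match i with
  | 0 => p.1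
  | 1 => p.2.1
  | 2 => p.2.2.1
  | 3 => p.2.2.2
  | n => n

def p4 : List (ℕ × ℕ × ℕ × ℕ) := [(0, 1, 2, 3), (0, 1, 3, 2), (0, 2, 1, 3), (0, 2, 3, 1), (0, 3, 1, 2), (0, 3, 2, 1), (1, 0, 2, 3), (1, 0, 3, 2), (1, 2, 0, 3), (1, 2, 3, 0), (1, 3, 0, 2), (1, 3, 2, 0), (2, 0, 1, 3), (2, 0, 3, 1), (2, 1, 0, 3), (2, 1, 3, 0), (2, 3, 0, 1), (2, 3, 1, 0), (3, 0, 1, 2), (3, 0, 2, 1), (3, 1, 0, 2), (3, 1, 2, 0), (3, 2, 0, 1), (3, 2, 1, 0)]

def rhat (p : ℕ × ℕ × ℕ × ℕ) (q : ℕ × ℕ × ℕ × ℕ × ℕ) : ℕ × ℕ × ℕ × ℕ × ℕ :=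
  (rho p q.1, rho p q.2.1, rho p q.2.2.1, rho p q.2.2.2.1, rho p q.2.2.2.2)

theorem perm_rhat : ∀ p ∈ p4, (perms.map (rhat p)).isPerm perms = true := by decide +kernel

/-- relations of a four-vertex graph -/
def m4 (a b c d e f : ℕ) (i j : ℕ) : ℕ :=
  match i, j with
  | 0, 1 => a | 1, 0 => sw a
  | 0, 2 => b | 2, 0 => sw b
  | 1, 2 => c | 2, 1 => sw c
  | 0, 3 => d | 3, 0 => sw d
  | 1, 3 => e | 3, 1 => sw e
  | 2, 3 => f | 3, 2 => sw f
  | _, _ => 0

def cd6 (a b c d e f : ℕ) : ℕ := a + 3 * b + 9 * c + 27 * d + 81 * e + 243 * f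

def isCan (c : ℕ) : Bool := Nat.beq (Nat.land (Nat.shiftRight 15130370717605611936947136214540353638815151825490712692846974708246856729478837083408536911351108195769937156563345715 c) 1) 1

def hasCan (m : ℕ) : Bool :=
  p4.any fun p =>
    isCan (cd6 (m4 (dg 1 m) (dg 3 m) (dg 9 m) (dg 27 m) (dg 81 m) (dg 243 m) (rho p 0) (rho p 1))
      (m4 (dg 1 m) (dg 3 m) (dg 9 m) (dg 27 m) (dg 81 m) (dg 243 m) (rho p 0) (rho p 2))
      (m4 (dg 1 m) (dg 3 m) (dg 9 m) (dg 27 m) (dg 81 m) (dg 243 m) (rho p 1) (rho p 2))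
      (m4 (dg 1 m) (dg 3 m) (dg 9 m) (dg 27 m) (dg 81 m) (dg 243 m) (rho p 0) (rho p 3))
      (m4 (dg 1 m) (dg 3 m) (dg 9 m) (dg 27 m) (dg 81 m) (dg 243 m) (rho p 1) (rho p 3))
      (m4 (dg 1 m) (dg 3 m) (dg 9 m) (dg 27 m) (dg 81 m) (dg 243 m) (rho p 2) (rho p 3)))

theorem has_can : nall 729 hasCan = true := by decide +kernel

theorem can_mem : nall 729 (fun m => cond (isCan m)
    (decide ([dg 1 m, dg 3 m, dg 9 m, dg 27 m, dg 81 m, dg 243 m] ∈ can4)) true) = true := by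
  decide +kernel

theorem p4_lt : ∀ p ∈ p4, rho p 0 < 4 ∧ rho p 1 < 4 ∧ rho p 2 < 4 ∧ rho p 3 < 4 := by
  decide +kernel

end Pool.Agent.U944.TH
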