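import Pool.Agent.U944.TH.Parts

/-! The bound for the Lagrangian. -/

set_option autoImplicit false

open Finset

namespace Pool.Agent.U944.TH

variable {V : Type} [Fintype V]

/-- the certificate at five points -/
def TTv (r : V → V → ℕ) (x : Fin 5 → V) : ℕ :=
  TT (r (x 0) (x 1)) (r (x 0) (x 2)) (r (x 0) (x 3)) (r (x 0) (x 4)) (r (x 1) (x 2))
    (r (x 1) (x 3)) (r (x 1) (x 4)) (r (x 2) (x 3)) (r (x 2) (x 4)) (r (x 3) (x 4))
def T2v (r : V → V → ℕ) (x : Fin 5 → V) : ℕ :=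
  T2 (r (x 0) (x 1)) (r (x 0) (x 2)) (r (x 0) (x 3)) (r (x 0) (x 4)) (r (x 1) (x 2))
    (r (x 1) (x 3)) (r (x 1) (x 4)) (r (x 2) (x 3)) (r (x 2) (x 4)) (r (x 3) (x 4))

def Rx (r : V → V → ℕ) (x : Fin 5 → V) (a b : ℕ) : ℕ := r (x (Fin.ofNat 5 a)) (x (Fin.ofNat 5 b))

theorem Rx_rel {r : V → V → ℕ} (hr : RV r) (x : Fin 5 → V) : Rel (Rx r x) :=
  ⟨fun _ _ => hr.lt _ _, fun _ _ => hr.sw _ _, fun _ => hr.dg _⟩

theorem pt {r : V → V → ℕ} (hr : RV r) (x : Fin 5 → V) :
    (perms.map fun p => TTv r (x ∘ pf p)).sum ≤ 276549174513824160 ∧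
    2243003720663040 ≤ (perms.map fun p => T2v r (x ∘ pf p)).sum := by
  have h := main_R (Rx_rel hr x)
  rw [sumL_sum, sumL_sum] at h
  have e1 : (fun p : ℕ × ℕ × ℕ × ℕ × ℕ => TR (Rx r x) p.1 p.2.1 p.2.2.1 p.2.2.2.1 p.2.2.2.2) =
      fun p => TTv r (x ∘ pf p) := rfl
  have e2 : (fun p : ℕ × ℕ × ℕ × ℕ × ℕ => TR2 (Rx r x) p.1 p.2.1 p.2.2.1 p.2.2.2.1 p.2.2.2.2) =
      fun p => T2v r (x ∘ pf p) := rfl
  rw [e1, e2] at h
  exact h

theorem len : (perms.length : ℝ) = 120 := by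
  have : perms.length = 120 := rfl
  rw [this]
  norm_num

theorem E1 {r : V → V → ℕ} (hr : RV r) {u : V → ℝ} (hu : ∀ x, 0 ≤ u x) (h1 : ∑ x, u x = 1) :
    120 * N5 u (fun a b c d e => (TT (r a b) (r a c) (r a d) (r a e) (r b c) (r b d) (r b e)
      (r c d) (r c e) (r d e) : ℝ)) ≤ 276549174513824160 := by
  have h2 : ∑ x, W u x * (((perms.map fun p => TTv r (x ∘ pf p)).sum : ℕ) : ℝ) ≤
      ∑ x, W u x * 276549174513824160 :=
    sum_le_sum fun x _ => mul_le_mul_of_nonneg_left (by exact_mod_cast (pt hr x).1) (W_nn hu x)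
  rw [← sum_mul, W_sum h1, one_mul, avg u (TTv r) perms pf_inj, len] at h2
  have h3 := nest u (fun a b c d e => (TT (r a b) (r a c) (r a d) (r a e) (r b c) (r b d) (r b e)
      (r c d) (r c e) (r d e) : ℝ))
  rw [← h3]
  exact h2

theorem E2 {r : V → V → ℕ} (hr : RV r) {u : V → ℝ} (hu : ∀ x, 0 ≤ u x) (h1 : ∑ x, u x = 1) :
    2243003720663040 ≤ 120 * N5 u (fun a b c d e => (T2 (r a b) (r a c) (r a d) (r a e) (r b c)
      (r b d) (r b e) (r c d) (r c e) (r d e) : ℝ)) := by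
  have h2 : ∑ x, W u x * 2243003720663040 ≤
      ∑ x, W u x * (((perms.map fun p => T2v r (x ∘ pf p)).sum : ℕ) : ℝ) :=
    sum_le_sum fun x _ => mul_le_mul_of_nonneg_left (by exact_mod_cast (pt hr x).2) (W_nn hu x)
  rw [← sum_mul, W_sum h1, one_mul, avg u (T2v r) perms pf_inj, len] at h2
  have h3 := nest u (fun a b c d e => (T2 (r a b) (r a c) (r a d) (r a e) (r b c) (r b d) (r b e)
      (r c d) (r c e) (r d e) : ℝ))
  rw [← h3]
  exact h2

theorem c3_lt {a b c : ℕ} (ha : a < 3) (hb : b < 3) (hc : c < 3) : c3 a b c < 27 := by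
  show 9 * a + (3 * b + c) < 27
  omega

theorem p9_lt {a b : ℕ} (ha : a < 3) (hb : b < 3) : p9 a b < 9 := by
  show 3 * a + b < 9
  omega

def sI (r : V → V → ℕ) (a b c : V) : ℕ := c3 (r a b) (r a c) (r b c)
def iI (r : V → V → ℕ) (a b c d : V) : ℕ := c3 (r a d) (r b d) (r c d)
def io (r : V → V → ℕ) (k : ℕ) (a b c : V) : ℝ := ind (p9 (r a c) (r b c)) k

def FX (r : V → V → ℕ) (a b c d e : V) : ℝ :=
  ∑ k ∈ range 27, Lf (sI r a b c) (iI r a b c d) k * Lf (sI r a b c) (iI r a b c e) k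
def FY (r : V → V → ℕ) (a b c d e : V) : ℝ :=
  ∑ k ∈ range 15, Mf (sI r a b c) k * Mf (sI r a d e) k
def FC (r : V → V → ℕ) (a b c _d _e : V) : ℝ := (ent tC (sI r a b c) : ℝ)
def FZ (r : V → V → ℕ) (a b c d e : V) : ℝ := (ent tC (sI r a b c) : ℝ) * (5 * phv r a d e - 2)
def FS (r : V → V → ℕ) (k : ℕ) (a b c d e : V) : ℝ :=
  ((sq (r a b) k : ℝ) * (2 - 5 * phv r c d e)) * (io r k a b c * io r k a b d * io r k a b e)
def FG (r : V → V → ℕ) (k : ℕ) (a b c d e : V) : ℝ :=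
  (sq (r a b) k : ℝ) * (io r k a b c * io r k a b d * io r k a b e)

theorem TT_real {r : V → V → ℕ} (hr : RV r) (a b c d e : V) :
    (TT (r a b) (r a c) (r a d) (r a e) (r b c) (r b d) (r b e) (r c d) (r c e) (r d e) : ℝ) =
    2304576371818496 + (5 * FX r a b c d e + (5 * FY r a b c d e + (FZ r a b c d e +
      ∑ k ∈ range 9, FS r k a b c d e))) := by
  have hA := tA_real (sI r a b c) (i := iI r a b c d) (j := iI r a b c e)
    (c3_lt (hr.lt _ _) (hr.lt _ _) (hr.lt _ _)) (c3_lt (hr.lt _ _) (hr.lt _ _) (hr.lt _ _))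
  have hB := tB_real (i := sI r a b c) (j := sI r a d e)
    (c3_lt (hr.lt _ _) (hr.lt _ _) (hr.lt _ _)) (c3_lt (hr.lt _ _) (hr.lt _ _) (hr.lt _ _))
  have hS := tS_real (r a b) (p := p9 (r a c) (r b c)) (q := p9 (r a d) (r b d))
    (t := p9 (r a e) (r b e)) (f := ph (r c d) (r c e) (r d e)) (p9_lt (hr.lt _ _) (hr.lt _ _))
    (ph_facts _ (hr.lt c d) _ (hr.lt c e) _ (hr.lt d e)).2.2
  have h0 : TT (r a b) (r a c) (r a d) (r a e) (r b c) (r b d) (r b e) (r c d) (r c e) (r d e) =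
      tAs (sI r a b c) (27 * iI r a b c d + iI r a b c e) +
        (ent tB (27 * sI r a b c + sI r a d e) +
          tS (r a b) (p9 (r a c) (r b c)) (p9 (r a d) (r b d)) (p9 (r a e) (r b e))
            (ph (r c d) (r c e) (r d e))) := rfl
  rw [h0, Nat.cast_add, Nat.cast_add, hA, hB, hS]
  have hp : ((Nat.land (Nat.shiftRight 3179680 (sI r a d e)) 1 : ℕ) : ℝ) = phv r a d e := rfl
  have hp2 : ((ph (r c d) (r c e) (r d e) : ℕ) : ℝ) = phv r c d e := rfl
  rw [hp, hp2]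
  unfold FX FY FZ FS io
  ring

theorem T2_real {r : V → V → ℕ} (hr : RV r) (a b c d e : V) :
    (T2 (r a b) (r a c) (r a d) (r a e) (r b c) (r b d) (r b e) (r c d) (r c e) (r d e) : ℝ) =
    17592186044416 + (FC r a b c d e + (-1) * ∑ k ∈ range 9, FG r k a b c d e) := by
  have hS := tS2_real (r a b) (p := p9 (r a c) (r b c)) (q := p9 (r a d) (r b d))
    (t := p9 (r a e) (r b e)) (p9_lt (hr.lt _ _) (hr.lt _ _))
  have h0 : T2 (r a b) (r a c) (r a d) (r a e) (r b c) (r b d) (r b e) (r c d) (r c e) (r d e) =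
      ent tC (sI r a b c) +
          tS2 (r a b) (p9 (r a c) (r b c)) (p9 (r a d) (r b d)) (p9 (r a e) (r b e)) := rfl
  rw [h0, Nat.cast_add, hS]
  unfold FC FG io
  ring

section
variable {r : V → V → ℕ} {u : V → ℝ} (hu : ∀ x, 0 ≤ u x)
include hu

theorem X_nn : 0 ≤ N5 u (FX r) := by
  unfold N5
  refine sum_nonneg fun a _ => sum_nonneg fun b _ => sum_nonneg fun c _ => ?_
  have h : ∑ d, ∑ e, u a * u b * u c * u d * u e * FX r a b c d e =
      (u a * u b * u c) * ∑ d, ∑ e, u d * u e *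
        ∑ k ∈ range 27, Lf (sI r a b c) (iI r a b c d) k * Lf (sI r a b c) (iI r a b c e) k := by
    rw [mul_sum]
    refine sum_congr rfl fun d _ => ?_
    rw [mul_sum]
    refine sum_congr rfl fun e _ => ?_
    unfold FX
    ring
  rw [h]
  exact mul_nonneg (mul_nonneg (mul_nonneg (hu a) (hu b)) (hu c))
    (sq_sum u 27 fun k d => Lf (sI r a b c) (iI r a b c d) k)

theorem Y_nn : 0 ≤ N5 u (FY r) := by
  unfold N5
  refine sum_nonneg fun a _ => ?_
  have hs := sq_sum (ι := V × V) (fun p => u p.1 * u p.2) 15 (fun k p => Mf (sI r a p.1 p.2) k)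
  simp only [Fintype.sum_prod_type] at hs
  have h : ∑ b, ∑ c, ∑ d, ∑ e, u a * u b * u c * u d * u e * FY r a b c d e =
      u a * ∑ b, ∑ c, ∑ d, ∑ e, u b * u c * (u d * u e) *
        ∑ k ∈ range 15, Mf (sI r a b c) k * Mf (sI r a d e) k := by
    rw [mul_sum]
    refine sum_congr rfl fun b _ => ?_
    rw [mul_sum]
    refine sum_congr rfl fun c _ => ?_
    rw [mul_sum]
    refine sum_congr rfl fun d _ => ?_
    rw [mul_sum]
    refine sum_congr rfl fun e _ => ?_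
    unfold FY
    ring
  rw [h]
  exact mul_nonneg (hu a) hs

end

theorem Z_eq {r : V → V → ℕ} {u : V → ℝ} (h1 : ∑ x, u x = 1) {l : ℝ}
    (hl : ∀ x, u x * d2 r u x = u x * l) : N5 u (FZ r) = (5 * l - 2) * N5 u (FC r) := by
  have e1 : ∀ a, ∑ d, ∑ e, u d * u e * (5 * phv r a d e - 2) = 5 * d2 r u a - 2 := by
    intro a
    have e2 : ∀ d, ∑ e, u d * u e * (5 * phv r a d e - 2) =
        u d * (5 * d1 r u a d) - 2 * u d := by
      intro d
      have e3 : ∑ e, u d * u e * (5 * phv r a d e - 2) =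
          ∑ e, (u d * 5 * (u e * phv r a d e) - 2 * u d * u e) :=
        sum_congr rfl fun e _ => by ring
      rw [e3, sum_sub_distrib, ← mul_sum, ← mul_sum, h1]
      unfold d1
      ring
    rw [sum_congr rfl fun d _ => e2 d, sum_sub_distrib, ← mul_sum, h1]
    unfold d2
    rw [mul_sum]
    have : ∑ x, u x * (5 * d1 r u a x) = ∑ x, 5 * (u x * d1 r u a x) :=
      sum_congr rfl fun x _ => by ring
    rw [this]
    ring
  have e4 : ∑ d, ∑ e, u d * u e = 1 := by
    simp only [← mul_sum, h1, mul_one]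
  unfold N5
  rw [mul_sum]
  refine sum_congr rfl fun a _ => ?_
  rw [mul_sum]
  refine sum_congr rfl fun b _ => ?_
  rw [mul_sum]
  refine sum_congr rfl fun c _ => ?_
  have e5 : ∑ d, ∑ e, u a * u b * u c * u d * u e * FZ r a b c d e =
      (u a * u b * u c * (ent tC (sI r a b c) : ℝ)) *
        ∑ d, ∑ e, u d * u e * (5 * phv r a d e - 2) := by
    rw [mul_sum]
    refine sum_congr rfl fun d _ => ?_
    rw [mul_sum]
    refine sum_congr rfl fun e _ => ?_
    unfold FZ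
    ring
  have e6 : ∑ d, ∑ e, u a * u b * u c * u d * u e * FC r a b c d e =
      (u a * u b * u c * (ent tC (sI r a b c) : ℝ)) * ∑ d, ∑ e, u d * u e := by
    rw [mul_sum]
    refine sum_congr rfl fun d _ => ?_
    rw [mul_sum]
    refine sum_congr rfl fun e _ => ?_
    unfold FC
    ring
  rw [e5, e6, e1, e4]
  have := hl a
  linear_combination (5 * u b * u c * (ent tC (sI r a b c) : ℝ)) * this

theorem cube (v : V → ℝ) : ∑ c, v c * ∑ d, v d * ∑ e, v e = (∑ x, v x) ^ 3 := by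
  simp only [← sum_mul]
  ring

theorem S_nn {r : V → V → ℕ} {u : V → ℝ} (hu : ∀ x, 0 ≤ u x) {l : ℝ}
    (hP : ∀ v : V → ℝ, (∀ x, 0 ≤ v x) → PP r v ≤ l * (∑ x, v x) ^ 3) (k : ℕ) :
    0 ≤ N5 u (FS r k) + (5 * l - 2) * N5 u (FG r k) := by
  rw [← N5_mul, ← N5_add]
  unfold N5
  refine sum_nonneg fun a _ => sum_nonneg fun b _ => ?_
  set v : V → ℝ := fun x => io r k a b x * u x with hv
  have hv0 : ∀ x, 0 ≤ v x := fun x => mul_nonneg (ind_nn _ _) (hu x)
  have h := hP v hv0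
  have h2 : ∑ c, ∑ d, ∑ e, u a * u b * u c * u d * u e *
      (FS r k a b c d e + (5 * l - 2) * FG r k a b c d e) =
      (u a * u b * (sq (r a b) k : ℝ)) * (5 * (l * (∑ x, v x) ^ 3 - PP r v)) := by
    rw [← cube v]
    unfold PP d2 d1
    rw [mul_sum, ← sum_sub_distrib, mul_sum, mul_sum]
    refine sum_congr rfl fun c _ => ?_
    have h3 : l * (v c * ∑ d, v d * ∑ e, v e) - v c * ∑ d, v d * ∑ e, v e * phv r c d e =
        ∑ d, ∑ e, v c * v d * v e * (l - phv r c d e) := by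
      rw [mul_sum, mul_sum, mul_sum, ← sum_sub_distrib]
      refine sum_congr rfl fun d _ => ?_
      rw [mul_sum, mul_sum, mul_sum, mul_sum, mul_sum, ← sum_sub_distrib]
      refine sum_congr rfl fun e _ => ?_
      ring
    rw [h3, mul_sum, mul_sum]
    refine sum_congr rfl fun d _ => ?_
    rw [mul_sum, mul_sum]
    refine sum_congr rfl fun e _ => ?_
    simp only [hv]
    unfold FS FG
    ring
  rw [h2]
  refine mul_nonneg (mul_nonneg (mul_nonneg (hu a) (hu b)) (Nat.cast_nonneg _)) ?_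
  linarith

/-- the bound for the Lagrangian -/
theorem lagr {r : V → V → ℕ} (hr : RV r) [Nonempty V] (w : V → ℝ) (hw : ∀ x, 0 ≤ w x)
    (hw1 : ∑ x, w x = 1) : PP r w ≤ 0.400015 := by
  obtain ⟨u, l, hu, h1, -, hP, hl⟩ := optimum hr
  have hw2 := hP w hw
  rw [hw1, one_pow, mul_one] at hw2
  refine hw2.trans ?_
  have hE1 := E1 hr hu h1
  have hE2 := E2 hr hu h1
  have f1 : N5 u (fun a b c d e => (TT (r a b) (r a c) (r a d) (r a e) (r b c) (r b d) (r b e)
      (r c d) (r c e) (r d e) : ℝ)) = 2304576371818496 + (5 * N5 u (FX r) + (5 * N5 u (FY r) +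
        (N5 u (FZ r) + ∑ k ∈ range 9, N5 u (FS r k)))) := by
    have : (fun a b c d e => (TT (r a b) (r a c) (r a d) (r a e) (r b c) (r b d) (r b e)
      (r c d) (r c e) (r d e) : ℝ)) = fun a b c d e => 2304576371818496 + (5 * FX r a b c d e +
        (5 * FY r a b c d e + (FZ r a b c d e + ∑ k ∈ range 9, FS r k a b c d e))) := by
      funext a b c d e
      exact TT_real hr a b c d e
    rw [this, N5_add u (fun _ _ _ _ _ => (2304576371818496 : ℝ)), N5_const h1,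
      N5_add u (fun a b c d e => 5 * FX r a b c d e), N5_mul,
      N5_add u (fun a b c d e => 5 * FY r a b c d e), N5_mul,
      N5_add u (fun a b c d e => FZ r a b c d e), N5_sum]
  have f2 : N5 u (fun a b c d e => (T2 (r a b) (r a c) (r a d) (r a e) (r b c) (r b d) (r b e)
      (r c d) (r c e) (r d e) : ℝ)) = 17592186044416 + (N5 u (FC r) +
        (-1) * ∑ k ∈ range 9, N5 u (FG r k)) := by
    have : (fun a b c d e => (T2 (r a b) (r a c) (r a d) (r a e) (r b c) (r b d) (r b e)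
      (r c d) (r c e) (r d e) : ℝ)) = fun a b c d e => 17592186044416 + (FC r a b c d e +
        (-1) * ∑ k ∈ range 9, FG r k a b c d e) := by
      funext a b c d e
      exact T2_real hr a b c d e
    rw [this, N5_add u (fun _ _ _ _ _ => (17592186044416 : ℝ)), N5_const h1,
      N5_add u (fun a b c d e => FC r a b c d e),
      N5_mul u (fun a b c d e => ∑ k ∈ range 9, FG r k a b c d e), N5_sum]
  rw [f1, Z_eq h1 hl] at hE1
  rw [f2] at hE2
  have hX := X_nn (r := r) hu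
  have hY := Y_nn (r := r) hu
  have hS : 0 ≤ ∑ k ∈ range 9, N5 u (FS r k) + (5 * l - 2) * ∑ k ∈ range 9, N5 u (FG r k) := by
    rw [mul_sum, ← sum_add_distrib]
    exact sum_nonneg fun k _ => S_nn hu hP k
  by_contra hcon
  push Not at hcon
  set K1 := N5 u (FC r)
  set K2 := ∑ k ∈ range 9, N5 u (FG r k)
  have h3 : (1099511627776 : ℝ) ≤ K1 - K2 := by linarith
  have h4 : (5 * l - 2) * (K1 - K2) ≤ 82463372 := by linarith
  have h5 : (0.000075 : ℝ) < 5 * l - 2 := by linarith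
  nlinarith

end Pool.Agent.U944.TH
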