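import Pool.Agent.U944.TH.Psd
import Pool.Agent.U944.TH.Comb
import Pool.Agent.U944.TH.Avg

/-! The parts of the certificate as real functions. -/

set_option autoImplicit false

open Finset

namespace Pool.Agent.U944.TH

theorem cond_beq {α : Type} (s k : ℕ) (x y : α) :
    cond (Nat.beq s k) x y = if s = k then x else y := by
  by_cases h : s = k
  · subst h
    rw [if_pos rfl, Nat.beq_refl]
    rfl
  · rw [if_neg h]
    cases hb : Nat.beq s k with
    | false => rfl
    | true => exact absurd (Nat.eq_of_beq_eq_true hb) h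

theorem dotz_sum (T w i j n : ℕ) :
    dotz T w i j n = ∑ k ∈ range n, le T (w * i + k) * le T (w * j + k) := by
  induction n with
  | zero => rfl
  | succ n ih =>
    rw [sum_range_succ, ← ih]
    rfl

/-- the factor of a type -/
def Lf (s i k : ℕ) : ℝ :=
  if s = 0 then (le tL0 (27 * i + k) : ℝ) else if s = 1 then (le tL1 (27 * i + k) : ℝ) else
  if s = 4 then (le tL2 (27 * i + k) : ℝ) else if s = 5 then (le tL3 (27 * i + k) : ℝ) else
  if s = 8 then (le tL4 (27 * i + k) : ℝ) else if s = 13 then (le tL5 (27 * i + k) : ℝ) else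
  if s = 16 then (le tL6 (27 * i + k) : ℝ) else 0

theorem fA_real {TA TL : ℕ} (h : nall 27 (fun i => nall 27 fun j => fA TA TL i j) = true)
    {i j : ℕ} (hi : i < 27) (hj : j < 27) :
    (ent TA (27 * i + j) : ℝ) = 1125899906842624 +
      5 * ∑ k ∈ range 27, (le TL (27 * i + k) : ℝ) * (le TL (27 * j + k) : ℝ) := by
  have h1 := nall_true (nall_true h i hi) j hj
  unfold fA at h1
  have h2 := of_decide_eq_true h1
  rw [dotz_sum] at h2
  exact_mod_cast h2

theorem tA_real (s : ℕ) {i j : ℕ} (hi : i < 27) (hj : j < 27) :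
    (tAs s (27 * i + j) : ℝ) = 1125899906842624 + 5 * ∑ k ∈ range 27, Lf s i k * Lf s j k := by
  unfold tAs Lf
  simp only [cond_beq]
  by_cases h0 : s = 0
  · simp only [h0, if_true]; exact fA_real a0 hi hj
  by_cases h1 : s = 1
  · simp only [h1, if_true, one_ne_zero, if_false]; exact fA_real a1 hi hj
  by_cases h2 : s = 4
  · subst h2; simp only [if_true, if_false, OfNat.ofNat_ne_zero, OfNat.ofNat_ne_one]
    exact fA_real a2 hi hj
  by_cases h3 : s = 5
  · subst h3; norm_num only [if_true, if_false]
    exact fA_real a3 hi hj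
  by_cases h4 : s = 8
  · subst h4; norm_num only [if_true, if_false]
    exact fA_real a4 hi hj
  by_cases h5 : s = 13
  · subst h5; norm_num only [if_true, if_false]
    exact fA_real a5 hi hj
  by_cases h6 : s = 16
  · subst h6; norm_num only [if_true, if_false]
    exact fA_real a6 hi hj
  simp only [if_neg h0, if_neg h1, if_neg h2, if_neg h3, if_neg h4, if_neg h5, if_neg h6]
  norm_num

def Mf (s k : ℕ) : ℝ := (le tM (15 * s + k) : ℝ)

theorem tB_real {i j : ℕ} (hi : i < 27) (hj : j < 27) :
    (ent tB (27 * i + j) : ℝ) = 1125899906842624 + 5 * ∑ k ∈ range 15, Mf i k * Mf j k +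
      (ent tC i : ℝ) * (5 * ((Nat.land (Nat.shiftRight 3179680 j) 1 : ℕ) : ℝ) - 2) := by
  have h1 := nall_true (nall_true b0 i hi) j hj
  unfold fB at h1
  have h2 := of_decide_eq_true h1
  rw [dotz_sum] at h2
  unfold Mf
  exact_mod_cast h2

/-- indicator -/
def ind (p k : ℕ) : ℝ := if p = k then 1 else 0

theorem ind_nn (p k : ℕ) : 0 ≤ ind p k := by unfold ind; split_ifs <;> norm_num

theorem sq_le (a p : ℕ) : sq a p ≤ 17592186044416 := by
  unfold sq
  simp only [cond_beq]
  split_ifs <;> norm_num [s0, s1, s2]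

theorem ind_sum {p q t : ℕ} (hp : p < 9) (g : ℕ → ℝ) :
    ∑ k ∈ range 9, g k * (ind p k * ind q k * ind t k) =
      if p = q then (if p = t then g p else 0) else 0 := by
  have h : ∀ k ∈ range 9, g k * (ind p k * ind q k * ind t k) =
      if p = k then (g p * (ind q p * ind t p)) else 0 := by
    intro k _
    unfold ind
    by_cases h : p = k
    · subst h; simp
    · simp [h]
  rw [sum_congr rfl h, sum_ite_eq, if_pos (mem_range.mpr hp)]
  unfold ind
  by_cases h1 : p = q
  · by_cases h2 : p = t
    · subst h1; subst h2; simp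
    · subst h1
      have h2' : ¬ t = p := fun h => h2 h.symm
      simp [h2, h2']
  · simp [h1, Ne.symm h1]

theorem tS_real (a : ℕ) {p q t f : ℕ} (hp : p < 9) (hf : f ≤ 1) :
    (tS a p q t f : ℝ) = 52776558133248 +
      ∑ k ∈ range 9, ((sq a k : ℝ) * (2 - 5 * (f : ℝ))) * (ind p k * ind q k * ind t k) := by
  rw [ind_sum hp]
  unfold tS
  simp only [cond_beq]
  have hs := sq_le a p
  by_cases h1 : p = q
  · by_cases h2 : p = t
    · rw [if_pos h1, if_pos h2, if_pos h1, if_pos h2]
      unfold sv
      rw [cond_beq]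
      rcases Nat.le_one_iff_eq_zero_or_eq_one.mp hf with h3 | h3
      · rw [if_pos h3, h3]
        simp only [Nat.add_eq, Nat.mul_eq]
        push_cast
        ring
      · rw [if_neg (by omega), h3]
        simp only [Nat.sub_eq, Nat.mul_eq]
        rw [Nat.cast_sub (by omega)]
        push_cast
        ring
    · rw [if_pos h1, if_neg h2, if_pos h1, if_neg h2]
      norm_num
  · rw [if_neg h1, if_neg h1]
    norm_num

theorem tS2_real (a : ℕ) {p q t : ℕ} (hp : p < 9) :
    (tS2 a p q t : ℝ) = 17592186044416 -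
      ∑ k ∈ range 9, (sq a k : ℝ) * (ind p k * ind q k * ind t k) := by
  rw [ind_sum hp]
  unfold tS2
  simp only [cond_beq]
  have hs := sq_le a p
  by_cases h1 : p = q
  · by_cases h2 : p = t
    · rw [if_pos h1, if_pos h2, if_pos h1, if_pos h2]
      simp only [Nat.sub_eq]
      rw [Nat.cast_sub hs]
      push_cast
      ring
    · rw [if_pos h1, if_neg h2, if_pos h1, if_neg h2]
      norm_num
  · rw [if_neg h1, if_neg h1]
    norm_num

end Pool.Agent.U944.TH
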