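import Pool.Agent.U944.TH.Base

/-! Factorisations of the tables (generated). -/

set_option autoImplicit false
set_option maxRecDepth 100000

namespace Pool.Agent.U944.TH

/-- signed entry of a factor -/
def le (T i : ℕ) : ℤ := Int.subNatNat (Nat.mod (Nat.shiftRight T (Nat.mul 24 i)) 16777216) 8388608

def dotz (T w i j : ℕ) (n : ℕ) : ℤ :=
  Nat.rec (motive := fun _ => ℤ) 0 (fun k s => Int.add s (Int.mul (le T (w * i + k)) (le T (w * j + k)))) n

def fA (TAb TL : ℕ) (i j : ℕ) : Bool :=
  decide ((ent TAb (27 * i + j) : ℤ) = 1125899906842624 + 5 * dotz TL 27 i j 27)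

def fB (i j : ℕ) : Bool :=
  decide ((ent tB (27 * i + j) : ℤ) = 1125899906842624 + 5 * dotz tM 15 i j 15 +
    (ent tC i : ℤ) * (5 * (Nat.land (Nat.shiftRight 3179680 j) 1 : ℕ) - 2))

theorem a0 : nall 27 (fun i => nall 27 fun j => fA tA0 tL0 i j) = true := by decide +kernel
theorem a1 : nall 27 (fun i => nall 27 fun j => fA tA1 tL1 i j) = true := by decide +kernel
theorem a2 : nall 27 (fun i => nall 27 fun j => fA tA2 tL2 i j) = true := by decide +kernel
theorem a3 : nall 27 (fun i => nall 27 fun j => fA tA3 tL3 i j) = true := by decide +kernel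
theorem a4 : nall 27 (fun i => nall 27 fun j => fA tA4 tL4 i j) = true := by decide +kernel
theorem a5 : nall 27 (fun i => nall 27 fun j => fA tA5 tL5 i j) = true := by decide +kernel
theorem a6 : nall 27 (fun i => nall 27 fun j => fA tA6 tL6 i j) = true := by decide +kernel
theorem b0 : nall 27 (fun i => nall 27 fun j => fB i j) = true := by decide +kernel

end Pool.Agent.U944.TH
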